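import Pool.Agent.Q315.CC.Plain

/-!
# The nef cone conjecture for pairs: finite quotients with ramification, and orbifold pairs

Let `(X, Δ)` be a klt Calabi–Yau pair and `G` a finite group of automorphisms of `X` which preserve `Δ`,
`Y = X / G`, and `Δ_Y` the divisor with `K_X + Δ = π^* (K_Y + Δ_Y)`; the quotient map `π` may be ramified in
codimension one. If the cone conjecture holds for `(X, Δ)`, then it holds for `(Y, Δ_Y)`. As a consequence,
the cone conjecture for the klt Calabi–Yau pairs with standard coefficients `1 - 1/m` (orbifold pairs)
is equivalent to the cone conjecture for the varieties `X` with canonical singularities and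
`K_X ~ 0` and no boundary (index one covers), and, since it is known for abelian varieties and for
irreducible holomorphic symplectic manifolds, it holds for all pairs which are finite quotients of a
product of such varieties, ramified or not.

No arithmeticity of the group is used: the fundamental domain descends by the Siegel property
(`Pool.Agent.Q315.CC.siegel`), which holds for every group of automorphisms of a lattice and a cone with
a rational polyhedral covering, and the finiteness of nonabelian cohomology for the algebraic group which
acts trivially on `N^1(X)` (`Pool.Agent.Q315.CC.descent`).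

In the definitions of `Pool.Agent.Q315.CC.Plain`, for a pair `(X, Δ)`: `ℝ ^ n` is `N^1(X)`, `ℤ ^ n` are the
integral classes, `N` is the nef cone, `C` is the nef effective cone, `deg` is the intersection number with a
power of an ample class, `Γ` is `Aut(X, Δ)`, acting by push-forward. `HasDomain` is the statement of Q1 for
`(X, Δ)`.
-/

set_option autoImplicit false

namespace Pool.Agent.Results.MP_9f99c5_ag.FiniteQuotients

open Pool.Agent.Q315.CC.Pl

/-- The pair `Y` is the quotient of the pair `X` by a finite group. -/
def Quot {V : Type*} (d : V → ConeSpace) (X Y : V) : Prop :=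
  ∃ (G : Subgroup (d X).Γ) (q : (Fin (d Y).n → ℝ) → (Fin (d X).n → ℝ)), IsQuotient (d X) (d Y) G q

/-- The pair `X` is the product of pairs with the property `P`, and the classes decompose. -/
def Prod {V : Type*} (d : V → ConeSpace) (P : V → Prop) (X : V) : Prop :=
  ∃ (m : ℕ) (Z : Fin m → V) (p : ∀ i, (Fin (d (Z i)).n → ℝ) → (Fin (d X).n → ℝ)),
    IsProduct (d X) (fun i => d (Z i)) p ∧ ∀ i, P (Z i)

/-- The known facts about the class `V` of the klt Calabi–Yau pairs: the elementary properties; a pair with
standard coefficients (`Std`) is a quotient of a variety with canonical singularities and trivial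
canonical class (`Can`), which is itself a pair with standard coefficients (the boundary is zero); the
cone conjecture for abelian varieties and irreducible holomorphic symplectic manifolds (`Known`). -/
structure IsPairTheory {V : Type*} (d : V → ConeSpace) (Std Can Known : V → Prop) : Prop where
  data : ∀ X, IsConeSpace (d X)
  indexOne : ∀ Y, Std Y → ∃ X, Can X ∧ Quot d X Y
  standard : ∀ X, Can X → Std X
  known : ∀ X, Known X → HasDomain (d X)

/-- **The cone conjecture for klt Calabi–Yau pairs passes to finite quotients; the cone conjecture for
orbifold pairs is equivalent to the one for canonical varieties with trivial canonical class.** -/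
theorem result {V : Type*} (d : V → ConeSpace) (Std Can Known : V → Prop)
    (h : IsPairTheory d Std Can Known) :
    (∀ X Y, Quot d X Y → HasDomain (d X) → HasDomain (d Y)) ∧
    ((∀ Y, Std Y → HasDomain (d Y)) ↔ ∀ X, Can X → HasDomain (d X)) ∧
    ∀ X Y, Quot d X Y → Prod d Known X → HasDomain (d Y) := by
  have h1 : ∀ X Y, Quot d X Y → HasDomain (d X) → HasDomain (d Y) := by
    rintro X Y ⟨G, q, hq⟩ hX
    exact quotient (h.data X) (h.data Y) hq hX
  refine ⟨h1, ⟨fun h2 X hX => h2 X (h.standard X hX), fun h2 Y hY => ?_⟩, ?_⟩
  · obtain ⟨X, hX, hq⟩ := h.indexOne Y hY
    exact h1 X Y hq (h2 X hX)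
  · rintro X Y hq ⟨m, Z, p, hp, hZ⟩
    exact h1 X Y hq (product (h.data X) (fun i => h.data (Z i)) hp fun i => h.known _ (hZ i))

end Pool.Agent.Results.MP_9f99c5_ag.FiniteQuotients
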